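import Pool.Agent.Helper71.HV.Sub

/-! Part PE of row V2R of sheet HV (MP_56acfd_mp): pairs of electrons. -/

set_option autoImplicit false

namespace Pool.Agent.Helper36.HV

open MeasureTheory Filter Pool.Agent.Helper95 Pool.Agent.Helper95.PW Pool.Agent.Helper95.LN
  Pool.Agent.Helper95.CF Pool.Agent.Helper95.HV

theorem PE_abs_le_nr (y : R3) (i : Fin 3) : |y i| ≤ nr y := by
  unfold nr
  apply Real.abs_le_sqrt
  fin_cases i
  · show y 0 ^ 2 ≤ _
    nlinarith [sq_nonneg (y 1), sq_nonneg (y 2)]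
  · show y 1 ^ 2 ≤ _
    nlinarith [sq_nonneg (y 0), sq_nonneg (y 2)]
  · show y 2 ^ 2 ≤ _
    nlinarith [sq_nonneg (y 0), sq_nonneg (y 1)]

theorem PE_pd_smooth {a : R3 → ℝ} (ha : ContDiff ℝ (⊤ : ℕ∞) a) (i : Fin 3) :
    ContDiff ℝ (⊤ : ℕ∞) (pd i a) := by
  unfold pd
  exact (ha.fderiv_right (m := (⊤ : ℕ∞)) (by simp)).clm_apply contDiff_const

theorem PE_lip {f : R3 → ℝ} (hf : ContDiff ℝ (⊤ : ℕ∞) f) {B : ℝ}
    (hB : ∀ i y, |pd i f y| ≤ B) (y y' : R3) : |f y - f y'| ≤ 3 * B * nr (y - y') := by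
  have hB0 : 0 ≤ B := (abs_nonneg _).trans (hB 0 y)
  have hn : ∀ x, ‖fderiv ℝ f x‖ ≤ 3 * B := by
    intro x
    refine ContinuousLinearMap.opNorm_le_bound _ (by positivity) fun v => ?_
    have e : v = ∑ i, v i • (Pi.single i (1 : ℝ) : R3) := by
      funext j
      rw [Finset.sum_apply]
      simp [Pi.single_apply]
    have e2 : fderiv ℝ f x v = ∑ i, v i * pd i f x := by
      conv_lhs => rw [e]
      rw [map_sum]
      refine Finset.sum_congr rfl fun i _ => ?_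
      rw [map_smul, smul_eq_mul]
      rfl
    rw [e2, Real.norm_eq_abs]
    calc |∑ i, v i * pd i f x| ≤ ∑ i, |v i * pd i f x| := Finset.abs_sum_le_sum_abs _ _
      _ ≤ ∑ _i : Fin 3, ‖v‖ * B := Finset.sum_le_sum fun i _ => by
          rw [abs_mul]
          exact mul_le_mul (norm_le_pi_norm v i) (hB i x) (abs_nonneg _) (norm_nonneg _)
      _ = 3 * B * ‖v‖ := by
          rw [Finset.sum_const, Finset.card_univ, Fintype.card_fin, nsmul_eq_mul]
          push_cast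
          ring
  have h := Convex.norm_image_sub_le_of_norm_fderiv_le (𝕜 := ℝ) (f := f) (C := 3 * B)
    (fun x _ => hf.differentiable (by simp) x) (fun x _ => hn x) convex_univ
    (Set.mem_univ y') (Set.mem_univ y)
  have h2 : ‖y - y'‖ ≤ nr (y - y') :=
    (pi_norm_le_iff_of_nonneg (Real.sqrt_nonneg _)).2 fun i => PE_abs_le_nr _ i
  rw [Real.norm_eq_abs] at h
  exact h.trans (mul_le_mul_of_nonneg_left h2 (by positivity))

theorem PE_dot {v ξ : R3} {α ρ : ℝ} (hα : 0 ≤ α) (hv : ∀ m, |v m| ≤ α) (hξ : ∀ m, |ξ m| ≤ ρ) :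
    |∑ m, v m * ξ m| ≤ 3 * (α * ρ) := by
  calc |∑ m, v m * ξ m| ≤ ∑ m, |v m * ξ m| := Finset.abs_sum_le_sum_abs _ _
    _ ≤ ∑ _m : Fin 3, α * ρ := Finset.sum_le_sum fun m _ => by
        rw [abs_mul]
        exact mul_le_mul (hv m) (hξ m) (abs_nonneg _) hα
    _ = 3 * (α * ρ) := by
        rw [Finset.sum_const, Finset.card_univ, Fintype.card_fin, nsmul_eq_mul]
        push_cast
        ring

theorem PE_Tq {ξ v w : R3} {α β : ℝ} (hα : 0 ≤ α) (hβ : 0 ≤ β) (hv : ∀ m, |v m| ≤ α)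
    (hw : ∀ m, |w m| ≤ β) (hρ : 0 < nr ξ) :
    |Tq ξ v w| ≤ 30 * (α * β) / nr ξ ^ 3 := by
  have hξ : ∀ m, |ξ m| ≤ nr ξ := PE_abs_le_nr ξ
  have hP := PE_dot hα hv hξ
  have hQ := PE_dot hβ hw hξ
  have hS := PE_dot hα hv hw
  unfold Tq
  set ρ := nr ξ with hρdef
  set P := ∑ m, v m * ξ m with hPdef
  set Q := ∑ m, w m * ξ m with hQdef
  set S := ∑ m, v m * w m with hSdef
  have h1 : |3 * P * Q / ρ ^ 5| ≤ 27 * (α * β) / ρ ^ 3 := by
    rw [abs_div, abs_of_pos (pow_pos hρ 5), div_le_div_iff₀ (pow_pos hρ 5) (pow_pos hρ 3)]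
    have h3 : |3 * P * Q| ≤ 27 * (α * β) * ρ ^ 2 := by
      rw [abs_mul, abs_mul, abs_of_pos (by norm_num : (0 : ℝ) < 3)]
      have h4 := mul_le_mul hP hQ (abs_nonneg _) (by positivity)
      calc 3 * |P| * |Q| = 3 * (|P| * |Q|) := by ring
        _ ≤ 3 * (3 * (α * ρ) * (3 * (β * ρ))) := by linarith
        _ = 27 * (α * β) * ρ ^ 2 := by ring
    calc |3 * P * Q| * ρ ^ 3 ≤ 27 * (α * β) * ρ ^ 2 * ρ ^ 3 :=
          mul_le_mul_of_nonneg_right h3 (by positivity)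
      _ = 27 * (α * β) * ρ ^ 5 := by ring
  have h2 : |S / ρ ^ 3| ≤ 3 * (α * β) / ρ ^ 3 := by
    rw [abs_div, abs_of_pos (pow_pos hρ 3)]
    exact div_le_div_of_nonneg_right hS (by positivity)
  calc |3 * P * Q / ρ ^ 5 - S / ρ ^ 3| ≤ |3 * P * Q / ρ ^ 5| + |S / ρ ^ 3| := abs_sub _ _
    _ ≤ 27 * (α * β) / ρ ^ 3 + 3 * (α * β) / ρ ^ 3 := add_le_add h1 h2
    _ = 30 * (α * β) / ρ ^ 3 := by ring

theorem PE_gq {K L : ℝ} {G : R3 → ℝ} (hK : 0 ≤ K) (hL : 0 < L) (hG : Scale G K L)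
    (y y' : R3) (i : Fin 3) :
    |gq G y i - gq G y' i| ≤ 18 * (K ^ 2 / L ^ 2) * nr (y - y') := by
  have hρ : 0 ≤ nr (y - y') := Real.sqrt_nonneg _
  have hterm : ∀ l : Fin 3, |pd l (pd i G) y * pd l G y - pd l (pd i G) y' * pd l G y'| ≤
      6 * (K ^ 2 / L ^ 2) * nr (y - y') := by
    intro l
    have h1 : |pd l (pd i G) y - pd l (pd i G) y'| ≤ 3 * (K / L ^ 2) * nr (y - y') :=
      PE_lip (PE_pd_smooth (PE_pd_smooth hG.sm i) l) (fun j y => hG.d3 j l i y) y y'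
    have h2 : |pd l G y - pd l G y'| ≤ 3 * (K / L) * nr (y - y') :=
      PE_lip (PE_pd_smooth hG.sm l) (fun j y => hG.d2 j l y) y y'
    have h3 := hG.d1 l y
    have h4 := hG.d2 l i y'
    have e : pd l (pd i G) y * pd l G y - pd l (pd i G) y' * pd l G y' =
        (pd l (pd i G) y - pd l (pd i G) y') * pd l G y +
          pd l (pd i G) y' * (pd l G y - pd l G y') := by ring
    rw [e]
    calc _ ≤ |(pd l (pd i G) y - pd l (pd i G) y') * pd l G y| +
          |pd l (pd i G) y' * (pd l G y - pd l G y')| := abs_add_le _ _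
      _ ≤ 3 * (K / L ^ 2) * nr (y - y') * K + K / L * (3 * (K / L) * nr (y - y')) := by
          rw [abs_mul, abs_mul]
          exact add_le_add (mul_le_mul h1 h3 (abs_nonneg _) (by positivity))
            (mul_le_mul h4 h2 (abs_nonneg _) (by positivity))
      _ = 6 * (K ^ 2 / L ^ 2) * nr (y - y') := by
          field_simp
          ring
  have e : gq G y i - gq G y' i =
      ∑ l, (pd l (pd i G) y * pd l G y - pd l (pd i G) y' * pd l G y') := by
    unfold gq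
    rw [Finset.sum_sub_distrib]
  rw [e]
  calc _ ≤ ∑ l, |pd l (pd i G) y * pd l G y - pd l (pd i G) y' * pd l G y'| :=
        Finset.abs_sum_le_sum_abs _ _
    _ ≤ ∑ _l : Fin 3, 6 * (K ^ 2 / L ^ 2) * nr (y - y') := Finset.sum_le_sum fun l _ => hterm l
    _ = 18 * (K ^ 2 / L ^ 2) * nr (y - y') := by
        rw [Finset.sum_const, Finset.card_univ, Fintype.card_fin, nsmul_eq_mul]
        push_cast
        ring

theorem PE : Pool.Agent.Helper71.HV.ST_PE := by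
  refine ⟨864, by norm_num, ?_⟩
  intro K L r G A y y' hK hL hr hr1 hG hA hne
  have hρ : 0 < nr (y - y') := lt_of_le_of_ne (Real.sqrt_nonneg _) (Ne.symm hne)
  have hK0 : 0 < K := lt_of_lt_of_le one_pos hK
  have hL0 : 0 < L := lt_of_lt_of_le one_pos hL
  have ha : ∀ m, |(gv G y - gv G y') m| ≤ 3 * (K / L) * nr (y - y') := fun m =>
    PE_lip (PE_pd_smooth hG.sm m) (fun j y => hG.d2 j m y) y y'
  have hb : ∀ m, |(gv A y - gv A y') m| ≤ 3 * (K / r) * nr (y - y') := fun m =>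
    PE_lip (PE_pd_smooth hA.sm m) (fun j y => hA.d2 j m y) y y'
  have hT1 := PE_Tq (by positivity) (by positivity) ha ha hρ
  have hT2 := PE_Tq (by positivity) (by positivity) ha hb hρ
  have hT3 : |(∑ i, (gq G y i - gq G y' i) * (y i - y' i)) / nr (y - y') ^ 3| ≤
      54 * (K ^ 2 / L ^ 2) * (1 / nr (y - y')) := by
    have h1 : |∑ i, (gq G y i - gq G y' i) * (y i - y' i)| ≤
        3 * (18 * (K ^ 2 / L ^ 2) * nr (y - y') * nr (y - y')) :=
      PE_dot (v := fun i => gq G y i - gq G y' i) (ξ := fun i => y i - y' i) (by positivity)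
        (fun i => PE_gq hK0.le hL0 hG y y' i) (fun i => PE_abs_le_nr (y - y') i)
    rw [abs_div, abs_of_pos (pow_pos hρ 3)]
    calc _ ≤ 3 * (18 * (K ^ 2 / L ^ 2) * nr (y - y') * nr (y - y')) / nr (y - y') ^ 3 :=
          div_le_div_of_nonneg_right h1 (by positivity)
      _ = 54 * (K ^ 2 / L ^ 2) * (1 / nr (y - y')) := by
          field_simp
          ring
  set ρ := nr (y - y') with hρdef
  have e1 : 30 * (3 * (K / L) * ρ * (3 * (K / L) * ρ)) / ρ ^ 3 =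
      270 * (K ^ 2 / L ^ 2) * (1 / ρ) := by
    field_simp
    ring
  have e2 : 30 * (3 * (K / L) * ρ * (3 * (K / r) * ρ)) / ρ ^ 3 =
      270 * (K ^ 2 / (r * L)) * (1 / ρ) := by
    field_simp
    ring
  rw [e1] at hT1
  rw [e2] at hT2
  have h5 : K ^ 2 / L ^ 2 ≤ K ^ 2 / (r * L) := by
    apply div_le_div_of_nonneg_left (by positivity) (by positivity)
    nlinarith
  have h6 : K ^ 2 / L ^ 2 * (1 / ρ) ≤ K ^ 2 / (r * L) * (1 / ρ) :=
    mul_le_mul_of_nonneg_right h5 (by positivity)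
  have e3 : 864 * K ^ 2 / (r * L) * (1 / ρ) = 864 * (K ^ 2 / (r * L) * (1 / ρ)) := by ring
  rw [e3]
  linarith

end Pool.Agent.Helper36.HV
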