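import Pool.Agent.Helper95.HV.Stmts
import Pool.Agent.Helper56.PM.PIEM

/-! Row PSZ of sheet HV (MP_56acfd_mp): momentum in the shells. -/

set_option autoImplicit false

namespace Pool.Agent.Helper36.HV

open MeasureTheory Filter Pool.Agent.Helper95 Pool.Agent.Helper95.PW Pool.Agent.Helper95.LN
  Pool.Agent.Helper95.CF Pool.Agent.Helper95.HV

theorem PSZ_nucR {M : ℕ} (X : Fin M → R3) (Z : Fin M → ℝ) (hZ : ∀ j, 0 ≤ Z j) :
    0 ≤ nucR X Z := by
  unfold nucR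
  refine Finset.sum_nonneg fun i _ => Finset.sum_nonneg fun j _ => ?_
  split_ifs
  · exact div_nonneg (mul_nonneg (hZ i) (hZ j)) (Real.sqrt_nonneg _)
  · exact le_rfl

theorem PSZ_QM (h7 : ST_QHM) (h8 : ST_INTM) {n M : ℕ} (X : Fin M → R3) (Z : Fin M → ℝ)
    (E : ℝ) (u : Wf n) (hu : Sm u) :
    QM X Z u ≤ E * PW.sq u + ((1 / 4) * PW.sq u + resM X Z E u) := by
  have hq := h7 n M X Z u u hu hu
  rw [hq.2, hq.1]
  have hf : ∀ s, MemLp (fun x => hmM X Z (u s) x - E * u s x) 2 :=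
    fun s => PIEM_memLp h8 X Z E (hu s).1 (hu s).2
  have hm1 : ∀ s, MemLp (u s) 2 := fun s => (hu s).1.continuous.memLp_of_hasCompactSupport (hu s).2
  have hterm : ∀ s, ∫ x, u s x * hmM X Z (u s) x ≤
      E * (∫ x, u s x ^ 2) + ((1 / 4) * (∫ x, u s x ^ 2) +
        ∫ x, (hmM X Z (u s) x - E * u s x) ^ 2) := by
    intro s
    have i1 : Integrable (fun x => u s x ^ 2) := (hm1 s).integrable_sq
    have i2 : Integrable (fun x => (hmM X Z (u s) x - E * u s x) ^ 2) := (hf s).integrable_sq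
    have i3 : Integrable (fun x => u s x * (hmM X Z (u s) x - E * u s x)) := by
      have := (hf s).integrable_mul (hm1 s)
      refine this.congr (Eventually.of_forall fun x => ?_)
      simp only [Pi.mul_apply]
      ring
    have e1 : ∫ x, u s x * hmM X Z (u s) x =
        E * (∫ x, u s x ^ 2) + ∫ x, u s x * (hmM X Z (u s) x - E * u s x) := by
      rw [← integral_const_mul, ← integral_add (i1.const_mul E) i3]
      apply integral_congr_ae
      refine Eventually.of_forall fun x => ?_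
      show u s x * hmM X Z (u s) x = E * u s x ^ 2 + u s x * (hmM X Z (u s) x - E * u s x)
      ring
    have e2 : ∫ x, u s x * (hmM X Z (u s) x - E * u s x) ≤
        (1 / 4) * (∫ x, u s x ^ 2) + ∫ x, (hmM X Z (u s) x - E * u s x) ^ 2 := by
      rw [← integral_const_mul, ← integral_add (i1.const_mul _) i2]
      apply integral_mono i3 ((i1.const_mul _).add i2)
      intro x
      show u s x * (hmM X Z (u s) x - E * u s x) ≤
        1 / 4 * u s x ^ 2 + (hmM X Z (u s) x - E * u s x) ^ 2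
      nlinarith [sq_nonneg (u s x / 2 - (hmM X Z (u s) x - E * u s x))]
    rw [e1]
    linarith
  calc ∑ s, ∫ x, u s x * hmM X Z (u s) x ≤ ∑ s, (E * (∫ x, u s x ^ 2) +
      ((1 / 4) * (∫ x, u s x ^ 2) + ∫ x, (hmM X Z (u s) x - E * u s x) ^ 2)) :=
        Finset.sum_le_sum fun s _ => hterm s
    _ = _ := by
        unfold resM PW.sq
        rw [Finset.sum_add_distrib, Finset.sum_add_distrib, Finset.mul_sum, Finset.mul_sum]

theorem PSZ_count {n M : ℕ} {CN CT D r ν Y : ℝ} (X : Fin M → R3) (hM : 1 ≤ M) (hCN : 0 < CN)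
    (hCT : 0 < CT) (hD : D = CN * (1 + (16 * CT) ^ (3 / 5 : ℝ))) (hr : 0 < r) (hY : 0 < Y)
    (hν : ν = 1 + (Y * r ^ 2) ^ (3 / 5 : ℝ))
    (u : Wf n) (hu : Sm u) (hk : kin u ≤ CT * (M * Y))
    (hN : ∑ j, one (ballc (X j) (4 * r)) u ≤
      CN * (M + (M : ℝ) ^ (2 / 5 : ℝ) * (kin u * (4 * r) ^ 2) ^ (3 / 5 : ℝ))) :
    one (ind (Nb X (4 * r))) u ≤ M * D * ν := by
  have hM0 : (0 : ℝ) < M := by exact_mod_cast hM
  have hy : (0 : ℝ) ≤ (Y * r ^ 2) ^ (3 / 5 : ℝ) := Real.rpow_nonneg (by positivity) _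
  have hp : (0 : ℝ) < (16 * CT) ^ (3 / 5 : ℝ) := Real.rpow_pos_of_pos (by positivity) _
  have h2 : (kin u * (4 * r) ^ 2) ^ (3 / 5 : ℝ) ≤
      (16 * CT) ^ (3 / 5 : ℝ) * ((M : ℝ) ^ (3 / 5 : ℝ) * (Y * r ^ 2) ^ (3 / 5 : ℝ)) := by
    rw [← Real.mul_rpow hM0.le (by positivity), ← Real.mul_rpow (by positivity) (by positivity)]
    apply Real.rpow_le_rpow (mul_nonneg (pie_kin_nonneg u) (by positivity)) _ (by norm_num)
    have : kin u * (4 * r) ^ 2 ≤ CT * (M * Y) * (4 * r) ^ 2 :=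
      mul_le_mul_of_nonneg_right hk (by positivity)
    calc kin u * (4 * r) ^ 2 ≤ CT * (M * Y) * (4 * r) ^ 2 := this
      _ = 16 * CT * (M * (Y * r ^ 2)) := by ring
  have hMM : (M : ℝ) ^ (2 / 5 : ℝ) * (M : ℝ) ^ (3 / 5 : ℝ) = M := by
    rw [← Real.rpow_add hM0]
    norm_num
  have hM2 : (0 : ℝ) ≤ (M : ℝ) ^ (2 / 5 : ℝ) := Real.rpow_nonneg hM0.le _
  set p := (16 * CT) ^ (3 / 5 : ℝ) with hpdef
  set y := (Y * r ^ 2) ^ (3 / 5 : ℝ) with hydef
  calc one (ind (Nb X (4 * r))) u ≤ ∑ j, one (ballc (X j) (4 * r)) u := PIEM_one_ind X _ u hu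
    _ ≤ CN * (M + (M : ℝ) ^ (2 / 5 : ℝ) * (kin u * (4 * r) ^ 2) ^ (3 / 5 : ℝ)) := hN
    _ ≤ CN * (M + (M : ℝ) ^ (2 / 5 : ℝ) * (p * ((M : ℝ) ^ (3 / 5 : ℝ) * y))) := by
        apply mul_le_mul_of_nonneg_left _ hCN.le
        have := mul_le_mul_of_nonneg_left h2 hM2
        linarith
    _ = CN * (M + p * y * ((M : ℝ) ^ (2 / 5 : ℝ) * (M : ℝ) ^ (3 / 5 : ℝ))) := by ring
    _ = CN * (M + p * y * M) := by rw [hMM]
    _ ≤ CN * (M * ((1 + p) * (1 + y))) := by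
        apply mul_le_mul_of_nonneg_left _ hCN.le
        nlinarith [mul_nonneg hM0.le hy, mul_nonneg hM0.le hp.le]
    _ = M * D * ν := by
        rw [hν, hD]
        ring

theorem PSZ_alg {CS K D A ν X0 r N Y m : ℝ} (hCS : 0 < CS) (hA : 0 < A) (hD : 0 < D)
    (hν : 0 ≤ ν) (hX : 0 < X0) (hr : 0 < r) (hm : 0 < m) (hN0 : 0 ≤ N) (hN : N ≤ m * D * ν)
    (hY : Y ≤ A * (m * X0)) :
    CS * K ^ 4 * (N * (Y / r ^ 2 + N / r ^ 4)) ≤
      CS * K ^ 4 * D * (A + D) * m ^ 2 * (ν * (X0 / r ^ 2 + ν / r ^ 4)) := by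
  have hDν : 0 ≤ m * D * ν := by positivity
  have e1 : Y / r ^ 2 + N / r ^ 4 ≤ (A * (m * X0)) / r ^ 2 + (m * D * ν) / r ^ 4 :=
    add_le_add (div_le_div_of_nonneg_right hY (by positivity))
      (div_le_div_of_nonneg_right hN (by positivity))
  have e2 : N * (Y / r ^ 2 + N / r ^ 4) ≤
      (m * D * ν) * ((A * (m * X0)) / r ^ 2 + (m * D * ν) / r ^ 4) :=
    calc N * (Y / r ^ 2 + N / r ^ 4) ≤ N * ((A * (m * X0)) / r ^ 2 + (m * D * ν) / r ^ 4) :=
          mul_le_mul_of_nonneg_left e1 hN0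
      _ ≤ _ := mul_le_mul_of_nonneg_right hN (by positivity)
  have e3 : (m * D * ν) * ((A * (m * X0)) / r ^ 2 + (m * D * ν) / r ^ 4) ≤
      D * (A + D) * m ^ 2 * (ν * (X0 / r ^ 2 + ν / r ^ 4)) := by
    have a1 : 0 ≤ m ^ 2 * (D * ν * (D * (X0 / r ^ 2))) := by positivity
    have a2 : 0 ≤ m ^ 2 * (D * ν * (A * (ν / r ^ 4))) := by positivity
    have a3 : D * (A + D) * m ^ 2 * (ν * (X0 / r ^ 2 + ν / r ^ 4)) =
        (m * D * ν) * ((A * (m * X0)) / r ^ 2 + (m * D * ν) / r ^ 4) +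
        (m ^ 2 * (D * ν * (D * (X0 / r ^ 2))) + m ^ 2 * (D * ν * (A * (ν / r ^ 4)))) := by ring
    rw [a3]
    linarith
  have e4 : 0 ≤ CS * K ^ 4 := by positivity
  calc CS * K ^ 4 * (N * (Y / r ^ 2 + N / r ^ 4)) ≤
      CS * K ^ 4 * (D * (A + D) * m ^ 2 * (ν * (X0 / r ^ 2 + ν / r ^ 4))) :=
        mul_le_mul_of_nonneg_left (e2.trans e3) e4
    _ = _ := by ring

theorem PSZ (h1 : ST_MSZ) (h2 : ST_NRL) (h3 : ST_TUPZ) (hF : ST_FLD) (h4 : ST_APXM)
    (h5 : ST_LMTM) (h6 : ST_QHM) (h7 : ST_INTM) (h8 : ST_POTB) : ST_PSZ := by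
  intro d hd hd1
  obtain ⟨CS, hCS, H1⟩ := h1 d hd hd1
  obtain ⟨CN, hCN, H2⟩ := h2
  obtain ⟨CT, hCT, H3⟩ := h3 d hd hd1
  obtain ⟨K, hK, HF⟩ := hF
  have hp : (0 : ℝ) < (16 * CT) ^ (3 / 5 : ℝ) := Real.rpow_pos_of_pos (by positivity) _
  set D : ℝ := CN * (1 + (16 * CT) ^ (3 / 5 : ℝ)) with hD
  have hD0 : 0 < D := by positivity
  set A : ℝ := 1 + CS * (1 + CT) with hA
  have hA0 : 0 < A := by positivity
  have hK0 : 0 < K := lt_of_lt_of_le one_pos hK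
  refine ⟨CS * K ^ 4 * D * (A + D), by positivity, ?_⟩
  intro z E r ν n M X Z φ G m hdat hM hE hG hr hrd hν
  have hz0 : (0 : ℝ) < z := lt_of_lt_of_le one_pos hdat.z1
  have hM0 : (0 : ℝ) < M := by exact_mod_cast hM
  have hM1 : (1 : ℝ) ≤ M := by exact_mod_cast hM
  obtain ⟨CP, hCP, H8⟩ := h8 z d hz0.le hd
  obtain ⟨u, happ⟩ := h4 n M X Z E φ G hG
  obtain ⟨hu, _, _, ⟨M0, hM0'⟩, hres⟩ := id happ
  obtain ⟨l1, _, l3⟩ := h5 n M X Z E φ G u hG happ
  have hE0 : E ≤ 0 := by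
    have := PSZ_nucR X Z hdat.nuc.1
    linarith
  obtain ⟨f1, f2, f3, f4, f5⟩ := HF M X d r (2 * r) m hd hdat.sep hr (by linarith) hrd
  obtain ⟨g1, _, _, g4, _⟩ := HF M X d r r m hd hdat.sep hr le_rfl (by linarith)
  set g : R3 → ℝ := fun y => gN X m (2 * r) y - gN X m r y with hg
  have hoff : ∀ y, (∀ j, 4 * r < nr (y - X j)) → ∀ i, pd i g y = 0 := by
    intro y hy i
    have e := congrFun (PIEM_pd_sub f1.sm g1.sm i) y
    rw [hg, e]
    show pd i (gN X m (2 * r)) y - pd i (gN X m r) y = 0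
    rw [f4 y (fun j => by have := hy j; linarith) i, g4 y (fun j => by have := hy j; linarith) i,
      sub_self]
  set Y : ℝ := z ^ (7 / 3 : ℝ) with hYdef
  have hY : 0 < Y := Real.rpow_pos_of_pos hz0 _
  have hz2 : z ^ 2 ≤ Y := by
    rw [hYdef, ← Real.rpow_two]
    exact Real.rpow_le_rpow_of_exponent_le hdat.z1 (by norm_num)
  have hY1 : 1 ≤ Y := Real.one_le_rpow hdat.z1 (by norm_num)
  have hν0 : 0 ≤ ν := by
    rw [hν]
    have : (0 : ℝ) ≤ (Y * r ^ 2) ^ (3 / 5 : ℝ) := Real.rpow_nonneg (by positivity) _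
    linarith
  have hn0 : (0 : ℝ) ≤ n := Nat.cast_nonneg n
  have hM23 : (0 : ℝ) ≤ (M : ℝ) ^ (2 / 3 : ℝ) := Real.rpow_nonneg hM0.le _
  set BP : ℝ := CP * (CT * (M * Y) + n * (M : ℝ) ^ (2 / 3 : ℝ)) with hBP
  have hBP0 : 0 ≤ BP := by positivity
  have hT0 : 0 ≤ CT * (M * Y) := by positivity
  obtain ⟨C', hC', HS⟩ := H1 z K r (max M0 (1 + BP + CT * (M * Y))) E n M X Z g (Nb X (4 * r))
    hdat hG.low hK hr (by linarith) f2 f5
    (fun y hy i => hoff y (fun j => by have := hy j; linarith) i) (PIEM_Nb_closed X (4 * r))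
    (fun y hy i => hoff y (fun j => by
      by_contra hc
      exact hy ⟨j, not_lt.1 hc⟩) i)
  have t1 : Tendsto (fun j => PW.sq (fun s => Pg g (u j s)) ^ 2) atTop
      (nhds (PW.sq (PG g φ G) ^ 2)) := (l3 g f2.sm f2.cs).pow 2
  have t2 : Tendsto (fun j => CS * K ^ 4 * D * (A + D) * (M : ℝ) ^ 2 *
      (ν * (Y / r ^ 2 + ν / r ^ 4)) + C' * Real.sqrt (resM X Z E (u j))) atTop
      (nhds (CS * K ^ 4 * D * (A + D) * (M : ℝ) ^ 2 *
      (ν * (Y / r ^ 2 + ν / r ^ 4)) + C' * Real.sqrt 0)) :=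
    tendsto_const_nhds.add (tendsto_const_nhds.mul
      ((Real.continuous_sqrt.tendsto 0).comp hres))
  rw [Real.sqrt_zero, mul_zero, add_zero] at t2
  apply le_of_tendsto_of_tendsto t1 t2
  have v1 : ∀ᶠ j in atTop, PW.sq (u j) < 2 := l1.eventually (gt_mem_nhds (by norm_num))
  have v2 : ∀ᶠ j in atTop, resM X Z E (u j) < 1 / 2 :=
    hres.eventually (gt_mem_nhds (by norm_num))
  filter_upwards [v1, v2] with j w1 w2
  have hsm := (hu j).1
  have hs0 : 0 ≤ PW.sq (u j) := pie_sq_nonneg (u j)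
  have hk0 : 0 ≤ kin (u j) := pie_kin_nonneg (u j)
  have hQ := PSZ_QM h6 h7 X Z E (u j) hsm
  have hQ1 : QM X Z (u j) ≤ 1 := by
    have := mul_nonpos_of_nonpos_of_nonneg hE0 hs0
    linarith
  obtain ⟨b1, b2⟩ := H3 z E n M X Z (u j) hdat hM hE hsm (hu j).2 w1.le w2.le
  have b3 : one (pot X Z) (u j) ≤ BP := by
    refine (H8 n M X Z (u j) hM hdat.sep hdat.nuc.1 hdat.le hsm w1.le).trans ?_
    rw [hBP]
    apply mul_le_mul_of_nonneg_left _ hCP.le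
    linarith
  have b4 : pair (u j) ≤ 1 + BP := by
    have hq : QM X Z (u j) = kin (u j) + pair (u j) - one (pot X Z) (u j) := rfl
    linarith
  have hcount : one (ind (Nb X (4 * r))) (u j) ≤ M * D * ν :=
    PSZ_count X hM hCN hCT hD hr hY hν (u j) hsm b1
      (H2 n M X d (4 * r) (u j) hd hdat.sep (by positivity) (by linarith) hsm (hu j).2 w1.le)
  have hb0 : 0 ≤ one (ind (Nb X (4 * r))) (u j) := qle_one_nonneg _ (PIEM_ind_nonneg _) _
  have hYY : kin (u j) + YY CS d z X Z (u j) ≤ A * (M * Y) := by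
    have e1 : kin (u j) + YY CS d z X Z (u j) = QM X Z (u j) + nucR X Z * PW.sq (u j) +
        CS * (z ^ 2 * M + z * one (near1 X d) (u j)) := by
      unfold YY
      ring
    have e2 : QM X Z (u j) + nucR X Z * PW.sq (u j) ≤ 1 := by
      have h9 : (E + nucR X Z) * PW.sq (u j) ≤ 0 := mul_nonpos_of_nonpos_of_nonneg hE hs0
      nlinarith
    have e3 : z ^ 2 * M + z * one (near1 X d) (u j) ≤ (1 + CT) * (M * Y) := by
      have h9 : z ^ 2 * M ≤ Y * M := mul_le_mul_of_nonneg_right hz2 hM0.le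
      nlinarith
    have e4 : 1 ≤ (M : ℝ) * Y := by nlinarith
    have e5 := mul_le_mul_of_nonneg_left e3 hCS.le
    rw [e1, hA]
    nlinarith
  have key := HS (u j) hsm (hu j).2 w1.le
    (b1.trans ((by linarith : CT * (M * Y) ≤ 1 + BP + CT * (M * Y)).trans (le_max_right _ _)))
    (b4.trans ((by linarith : 1 + BP ≤ 1 + BP + CT * (M * Y)).trans (le_max_right _ _)))
    (b3.trans ((by linarith : BP ≤ 1 + BP + CT * (M * Y)).trans (le_max_right _ _)))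
    ((hM0' j).trans (le_max_left _ _)) (by linarith)
  have key2 := PSZ_alg (K := K) (r := r) (N := one (ind (Nb X (4 * r))) (u j))
    (Y := kin (u j) + YY CS d z X Z (u j)) hCS hA0 hD0 hν0 hY hr hM0 hb0 hcount hYY
  linarith

end Pool.Agent.Helper36.HV
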